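import Pool.Agent.E8helper68.LL.Descent

/-!
# The local loop lemma for odd cycles

Let `R` be a symmetric relation on a (possibly infinite) set `A` containing an odd cycle
`a_1, ..., a_l`, and let `f` be an idempotent operation on `A`, compatible with `R`, such that the
set of neighbours of `a_1` absorbs `a_1` with respect to `f`.  Then `R` has a loop.
-/

set_option autoImplicit false

universe u

namespace Pool.Agent.Results.MP_511665_al.OddCycleLoopH68

variable {A : Type u}

/-- `(c 0, ..., c (l - 1))` is an odd cycle of `R`: `l ≥ 3` is odd, the entries are distinct, and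
cyclically consecutive entries are related by `R`. -/
def IsOddCycle (R : A → A → Prop) {l : ℕ} (c : Fin l → A) : Prop :=
  3 ≤ l ∧ Odd l ∧ Function.Injective c ∧
    ∀ i j : Fin l, (j : ℕ) = ((i : ℕ) + 1) % l → R (c i) (c j)

/-- The operation `f` is idempotent. -/
def IsIdempotent {n : ℕ} (f : (Fin n → A) → A) : Prop := ∀ x : A, f (fun _ => x) = x

/-- The operation `f` is compatible with `R`. -/
def Compatible (R : A → A → Prop) {n : ℕ} (f : (Fin n → A) → A) : Prop :=
  ∀ x y : Fin n → A, (∀ i, R (x i) (y i)) → R (f x) (f y)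

/-- `B` absorbs `C` with respect to `f`: replacing one of the arguments `b_1, ..., b_n ∈ B` by an
element `c ∈ C` one has `f (b_1, ..., c, ..., b_n) ∈ B`. -/
def Absorbs {n : ℕ} (f : (Fin n → A) → A) (B C : Set A) : Prop :=
  ∀ (j : Fin n) (b : Fin n → A), (∀ i, b i ∈ B) → ∀ c ∈ C, f (Function.update b j c) ∈ B

/-- **Positive answer to Q1.**  Let `R` be a symmetric relation on a set `A` with an odd cycle
`c 0, ..., c (l - 1)`, and let `f` be an operation of arity `n ≥ 1` on `A` which is idempotent and
compatible with `R`, such that the set `{b | R (c 0) b}` absorbs `{c 0}` with respect to `f`.  Then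
`R` contains a loop. -/
theorem result (R : A → A → Prop) (hR : ∀ x y, R x y → R y x)
    (l : ℕ) [NeZero l] (c : Fin l → A) (hc : IsOddCycle R c)
    (n : ℕ) (_hn : 1 ≤ n) (f : (Fin n → A) → A) (hid : IsIdempotent f) (hf : Compatible R f)
    (habs : Absorbs f {b | R (c 0) b} {c 0}) :
    ∃ a : A, R a a := by
  obtain ⟨hl, hodd, -, hcyc⟩ := hc
  have h01 : R (c 0) (c ⟨1, by omega⟩) := hcyc _ _ (by
    rw [Fin.val_zero, Nat.zero_add, Nat.mod_eq_of_lt (by omega)])
  have S : E8helper68.LL.Setup R f (c 0) := by
    refine ⟨fun h => hR _ _ h, hid, fun h => hf _ _ h, ?_⟩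
    intro j x hj hx
    have h1 := habs j (Function.update x j (c ⟨1, by omega⟩)) (by
      intro i
      by_cases hi : i = j
      · subst hi
        rw [Function.update_self]
        exact h01
      · rw [Function.update_of_ne hi]
        exact hx i hi) (c 0) rfl
    rw [Function.update_idem, ← hj, Function.update_eq_self] at h1
    rw [← hj]
    exact h1
  obtain ⟨t, ht⟩ := hodd
  -- the closed walk of length `l`
  have h2 : E8helper68.LL.W R l (c 0) (c 0) := by
    have h3 := E8helper68.LL.W_of_seq (R := R) (fun i => c ⟨i % l, Nat.mod_lt _ (by omega)⟩) (by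
      intro i
      apply hcyc
      show (i + 1) % l = (i % l + 1) % l
      rw [Nat.mod_add_mod]) l
    have e0 : (⟨0 % l, Nat.mod_lt _ (by omega)⟩ : Fin l) = 0 := by
      apply Fin.ext
      simp
    have e1 : (⟨l % l, Nat.mod_lt _ (by omega)⟩ : Fin l) = 0 := by
      apply Fin.ext
      simp
    rw [e0, e1] at h3
    exact h3
  have h4 : E8helper68.LL.W R (2 * t + 1) (c 0) (c 0) := ht ▸ h2
  exact E8helper68.LL.loop_of_odd S h01 t (c 0) 0 h4 rfl

end Pool.Agent.Results.MP_511665_al.OddCycleLoopH68
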